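import Pool.Agent.U562.NB.Jac

set_option autoImplicit false

/-! The energy of the closest pair at nonwandering points of the three-body problem. -/

namespace Pool.Agent.U562.NB

open Pool.Agent.Y516.NW Pool.Agent.N775.NW

theorem pot3 (m : Fin 3 → ℝ) (q : Cfg 3) (a b c : Fin 3) (hab : a ≠ b) (hac : a ≠ c)
    (hbc : b ≠ c) : ∑ i, ∑ j, m i * m j / ‖q i - q j‖ / 2 = m a * m b / ‖q a - q b‖ +
      m a * m c / ‖q a - q c‖ + m b * m c / ‖q b - q c‖ := by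
  rw [sum3 _ a b c hab hac hbc]
  simp only [sum3 _ a b c hab hac hbc, sub_self, norm_zero, div_zero, zero_div]
  rw [norm_sub_rev (q b) (q a), norm_sub_rev (q c) (q a), norm_sub_rev (q c) (q b)]
  ring

theorem inner_energy (m : Fin 3 → ℝ) (hm : ∀ i, 0 < m i) :
    ∃ C : ℝ, 0 < C ∧ ∀ (E : ℝ) (ψ : Cfg 3 × Cfg 3 → ℝ)
      (φ : ℝ → Cfg 3 × Cfg 3 → Cfg 3 × Cfg 3), IsFl m E ψ φ →
      ∀ x ∈ Surf m E, NonW (Surf m E) φ x → ∀ a b c : Fin 3, a ≠ b → a ≠ c → b ≠ c →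
        ‖x.1 a - x.1 b‖ ≤ ‖x.1 a - x.1 c‖ → ‖x.1 a - x.1 b‖ ≤ ‖x.1 b - x.1 c‖ →
        ‖cm m a b x.1 a - x.1 c‖ * |m a * m b / (m a + m b) * ‖vel m x a - vel m x b‖ ^ 2 / 2 -
          m a * m b / ‖x.1 a - x.1 b‖ - E| ≤ C := by
  obtain ⟨C1, hC1, h3⟩ := three m hm
  obtain ⟨M, hM⟩ : ∃ M : ℝ, M = ∑ i, m i := ⟨_, rfl⟩
  have hM0 : 0 < M := by
    rw [hM]; exact Finset.sum_pos (fun i _ => hm i) ⟨0, Finset.mem_univ _⟩
  have hmM : ∀ i, m i ≤ M := fun i => by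
    rw [hM]
    exact Finset.single_le_sum (fun j _ => (hm j).le) (Finset.mem_univ i)
  refine ⟨M * C1 + 4 * M ^ 2, by positivity, ?_⟩
  intro E ψ φ hφ x hx hNW a b c hab hac hbc h1 h2
  have hX := h3 E ψ φ hφ x hx hNW a b c hab hac hbc h1 h2
  have hvs : ∑ i, m i • vel m x i = 0 := vel_sum m hm x hx.2.2.1
  have hma := hm a
  have hmb := hm b
  have hmc := hm c
  obtain ⟨μ1, hμ1⟩ : ∃ μ1 : ℝ, μ1 = m a * m b / (m a + m b) := ⟨_, rfl⟩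
  obtain ⟨μ2, hμ2⟩ : ∃ μ2 : ℝ, μ2 = (m a + m b) * m c / (m a + m b + m c) := ⟨_, rfl⟩
  have hμ2p : 0 < μ2 := by rw [hμ2]; positivity
  have hμ2M : μ2 ≤ M := by
    refine le_trans ?_ (hmM c)
    rw [hμ2, div_le_iff₀ (by positivity)]
    nlinarith [mul_pos hmc hmc]
  have hK : ∑ i, ‖x.2 i‖ ^ 2 / (2 * m i) = (μ1 * ‖vel m x a - vel m x b‖ ^ 2 +
      μ2 * ‖cm m a b (vel m x) a - vel m x c‖ ^ 2) / 2 := by
    have := jac3 m hm (innerₗ E3) (vel m x) (vel m x) hvs hvs a b c hab hac hbc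
    have hin : ∀ u w : E3, (innerₗ E3) u w = inner ℝ u w := fun u w => rfl
    simp only [hin, real_inner_self_eq_norm_sq, ← hμ1, ← hμ2] at this
    rw [← this, Finset.sum_div]
    refine Finset.sum_congr rfl fun i _ => ?_
    have := (hm i).ne'
    unfold vel
    rw [norm_smul, norm_inv, Real.norm_of_nonneg (hm i).le]
    field_simp
  have hen := hx.2.2.2
  rw [pot3 m x.1 a b c hab hac hbc, hK] at hen
  rw [← hμ1]
  have hr0 : 0 < ‖x.1 a - x.1 b‖ := norm_pos_iff.2 (sub_ne_zero.2 (hx.1 a b hab))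
  have hac0 : 0 < ‖x.1 a - x.1 c‖ := norm_pos_iff.2 (sub_ne_zero.2 (hx.1 a c hac))
  have hbc0 : 0 < ‖x.1 b - x.1 c‖ := norm_pos_iff.2 (sub_ne_zero.2 (hx.1 b c hbc))
  have hXa : ‖cm m a b x.1 a - x.1 c‖ ≤ 2 * ‖x.1 a - x.1 c‖ := by
    have e1 : cm m a b x.1 a - x.1 c = -(x.1 a - cm m a b x.1 a) + (x.1 a - x.1 c) := by abel
    rw [e1]
    refine (norm_add_le _ _).trans ?_
    rw [norm_neg]
    have := near m hm a b x.1 a
    linarith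
  have hXb : ‖cm m a b x.1 a - x.1 c‖ ≤ 2 * ‖x.1 b - x.1 c‖ := by
    have e1 : cm m a b x.1 a - x.1 c = -(x.1 b - cm m a b x.1 b) + (x.1 b - x.1 c) := by
      rw [cm_ab]; abel
    rw [e1]
    refine (norm_add_le _ _).trans ?_
    rw [norm_neg]
    have := near m hm a b x.1 b
    linarith
  obtain ⟨X, hXd⟩ : ∃ X : ℝ, X = ‖cm m a b x.1 a - x.1 c‖ := ⟨_, rfl⟩
  obtain ⟨V, hVd⟩ : ∃ V : ℝ, V = ‖cm m a b (vel m x) a - vel m x c‖ := ⟨_, rfl⟩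
  rw [← hXd] at hXa hXb ⊢
  rw [← hXd, ← hVd] at hX
  rw [← hVd] at hen
  have hX0 : 0 ≤ X := by rw [hXd]; exact norm_nonneg _
  have e2 : μ1 * ‖vel m x a - vel m x b‖ ^ 2 / 2 - m a * m b / ‖x.1 a - x.1 b‖ - E =
      m a * m c / ‖x.1 a - x.1 c‖ + m b * m c / ‖x.1 b - x.1 c‖ - μ2 * V ^ 2 / 2 := by
    linarith
  rw [e2]
  have f1 : X * (m a * m c / ‖x.1 a - x.1 c‖) ≤ 2 * M ^ 2 := by
    rw [mul_div_assoc', div_le_iff₀ hac0]
    have g1 : m a * m c ≤ M ^ 2 := by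
      rw [sq]
      exact mul_le_mul (hmM a) (hmM c) hmc.le hM0.le
    calc X * (m a * m c) ≤ (2 * ‖x.1 a - x.1 c‖) * M ^ 2 := by gcongr
      _ = _ := by ring
  have f2 : X * (m b * m c / ‖x.1 b - x.1 c‖) ≤ 2 * M ^ 2 := by
    rw [mul_div_assoc', div_le_iff₀ hbc0]
    have g1 : m b * m c ≤ M ^ 2 := by
      rw [sq]
      exact mul_le_mul (hmM b) (hmM c) hmc.le hM0.le
    calc X * (m b * m c) ≤ (2 * ‖x.1 b - x.1 c‖) * M ^ 2 := by gcongr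
      _ = _ := by ring
  have f3 : X * (μ2 * V ^ 2 / 2) ≤ M * C1 := by
    calc X * (μ2 * V ^ 2 / 2) = μ2 / 2 * (X * V ^ 2) := by ring
      _ ≤ M * C1 := by
          gcongr
          linarith
  have f4 : 0 ≤ X * (m a * m c / ‖x.1 a - x.1 c‖) := by positivity
  have f5 : 0 ≤ X * (m b * m c / ‖x.1 b - x.1 c‖) := by positivity
  have f6 : 0 ≤ X * (μ2 * V ^ 2 / 2) := by positivity
  rw [← abs_of_nonneg hX0, ← abs_mul, abs_le]
  have f7 : X * (m a * m c / ‖x.1 a - x.1 c‖ + m b * m c / ‖x.1 b - x.1 c‖ - μ2 * V ^ 2 / 2) =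
      X * (m a * m c / ‖x.1 a - x.1 c‖) + X * (m b * m c / ‖x.1 b - x.1 c‖) -
        X * (μ2 * V ^ 2 / 2) := by ring
  rw [f7]
  have g3 : 0 < M * C1 := by positivity
  have g4 : 0 < M ^ 2 := by positivity
  constructor <;> linarith

end Pool.Agent.U562.NB
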