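import Mathlib

set_option autoImplicit false

/-! Continuous dependence for integral curves of a vector field on an open set, and the invariance of
the set of nonwandering points. -/

namespace Pool.Agent.U562.NB

open Set Metric Filter Topology
open scoped NNReal

variable {F : Type} [NormedAddCommGroup F] [NormedSpace ℝ F] [FiniteDimensional ℝ F]

/-- a tube around a curve in which the field is Lipschitz -/
theorem tube (Ω : Set F) (hΩ : IsOpen Ω) (Z : F → F) (hZ : ContDiffOn ℝ 1 Z Ω) (γ : ℝ → F)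
    (hγ : Continuous γ) (T : ℝ) (hT : ∀ t ∈ Icc (0 : ℝ) T, γ t ∈ Ω) :
    ∃ ε : ℝ, 0 < ε ∧ ∃ L : ℝ≥0, ∀ t ∈ Icc (0 : ℝ) T, ball (γ t) ε ⊆ Ω ∧
      LipschitzOnWith L Z (ball (γ t) ε) := by
  have : ProperSpace F := FiniteDimensional.proper ℝ F
  have hK : IsCompact (γ '' Icc (0 : ℝ) T) := isCompact_Icc.image hγ
  obtain ⟨ε, hε, hsub⟩ := hK.exists_cthickening_subset_open hΩ (by
    rintro _ ⟨t, ht, rfl⟩
    exact hT t ht)
  have hKc : IsCompact (cthickening ε (γ '' Icc (0 : ℝ) T)) := hK.cthickening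
  have hcont : ContinuousOn (fun x => ‖fderiv ℝ Z x‖) (cthickening ε (γ '' Icc (0 : ℝ) T)) :=
    ((hZ.continuousOn_fderiv_of_isOpen hΩ le_rfl).mono hsub).norm
  obtain ⟨L, hL⟩ := hKc.bddAbove_image hcont
  refine ⟨ε, hε, ⟨max L 0, le_max_right _ _⟩, fun t ht => ?_⟩
  have hball : ball (γ t) ε ⊆ cthickening ε (γ '' Icc (0 : ℝ) T) := by
    intro y hy
    refine mem_cthickening_of_dist_le y (γ t) ε _ ⟨t, ht, rfl⟩ (mem_ball.1 hy).le
  refine ⟨hball.trans hsub, ?_⟩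
  refine (convex_ball (γ t) ε).lipschitzOnWith_of_nnnorm_fderiv_le (𝕜 := ℝ) ?_ ?_
  · intro y hy
    exact (hZ.contDiffAt (hΩ.mem_nhds (hsub (hball hy)))).differentiableAt one_ne_zero
  · intro y hy
    have h1 : ‖fderiv ℝ Z y‖ ≤ L := hL ⟨y, hball hy, rfl⟩
    rw [← NNReal.coe_le_coe]
    exact h1.trans (le_max_left _ _)

/-- curves starting close to `γ` stay close to `γ` -/
theorem stay (Ω : Set F) (hΩ : IsOpen Ω) (Z : F → F) (hZ : ContDiffOn ℝ 1 Z Ω) (γ : ℝ → F)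
    (T : ℝ) (hT : 0 ≤ T) (hγΩ : ∀ t, γ t ∈ Ω) (hγ : ∀ t, HasDerivAt γ (Z (γ t)) t) :
    ∃ ε : ℝ, 0 < ε ∧ ∃ A : ℝ, 0 < A ∧ ∀ β : ℝ → F, (∀ t, HasDerivAt β (Z (β t)) t) →
      dist (β 0) (γ 0) < ε → dist (β T) (γ T) ≤ A * dist (β 0) (γ 0) := by
  have hγc : Continuous γ := continuous_iff_continuousAt.2 fun t => (hγ t).continuousAt
  obtain ⟨ε, hε, L, hL⟩ := tube Ω hΩ Z hZ γ hγc T fun t _ => hγΩ t
  refine ⟨ε * Real.exp (-(L * T)), by positivity, Real.exp (L * T), Real.exp_pos _, ?_⟩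
  intro β hβ hd
  have hβc : Continuous β := continuous_iff_continuousAt.2 fun t => (hβ t).continuousAt
  have hg : Continuous fun t => dist (β t) (γ t) := hβc.dist hγc
  -- Gronwall as long as the curves are close
  have gron : ∀ t0, 0 ≤ t0 → t0 ≤ T → (∀ t ∈ Ico 0 t0, dist (β t) (γ t) < ε) →
      dist (β t0) (γ t0) ≤ dist (β 0) (γ 0) * Real.exp (L * t0) := by
    intro t0 h0 h1 h
    have := dist_le_of_trajectories_ODE_of_mem (v := fun _ => Z) (s := fun t => ball (γ t) ε)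
      (K := L) (f := β) (g := γ) (a := 0) (b := t0) (δ := dist (β 0) (γ 0))
      (fun t ht => (hL t ⟨ht.1, ht.2.le.trans h1⟩).2) hβc.continuousOn
      (fun t _ => (hβ t).hasDerivWithinAt) (fun t ht => h t ht) hγc.continuousOn
      (fun t _ => (hγ t).hasDerivWithinAt) (fun t _ => mem_ball_self hε) le_rfl t0
      ⟨h0, le_rfl⟩
    simpa using this
  have hd2 : ∀ t0, 0 ≤ t0 → t0 ≤ T → dist (β 0) (γ 0) * Real.exp (L * t0) < ε := by
    intro t0 h0 h1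
    calc dist (β 0) (γ 0) * Real.exp (L * t0) ≤ dist (β 0) (γ 0) * Real.exp (L * T) := by
          gcongr
      _ < ε * Real.exp (-(L * T)) * Real.exp (L * T) := by
          gcongr
      _ = ε := by rw [mul_assoc, ← Real.exp_add]; simp
  have hall : ∀ t ∈ Icc 0 T, dist (β t) (γ t) < ε := by
    by_contra hcon
    push Not at hcon
    let B : Set ℝ := Icc 0 T ∩ {t | ε ≤ dist (β t) (γ t)}
    have hB : IsCompact B := isCompact_Icc.inter_right (isClosed_le continuous_const hg)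
    have hne : B.Nonempty := by
      obtain ⟨t, ht, h⟩ := hcon
      exact ⟨t, ht, h⟩
    obtain ⟨t0, ht0, hmin⟩ := hB.exists_isLeast hne
    have h1 := gron t0 ht0.1.1 ht0.1.2 (fun t ht => by
      by_contra h
      push Not at h
      have := hmin ⟨⟨ht.1, ht.2.le.trans ht0.1.2⟩, h⟩
      linarith [ht.2])
    have h2 := hd2 t0 ht0.1.1 ht0.1.2
    have h3 : ε ≤ dist (β t0) (γ t0) := ht0.2
    linarith
  have := gron T hT le_rfl fun t ht => hall t ⟨ht.1, ht.2.le⟩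
  rw [mul_comm]
  exact this

/-- a family of integral curves in `S` -/
def IsFam (S : Set F) (Z : F → F) (φ : ℝ → F → F) : Prop :=
  ∀ x ∈ S, φ 0 x = x ∧ ∀ t : ℝ, φ t x ∈ S ∧ HasDerivAt (fun s : ℝ => φ s x) (Z (φ t x)) t

theorem IsFam.neg {S : Set F} {Z : F → F} {φ : ℝ → F → F} (h : IsFam S Z φ) :
    IsFam S (fun x => -Z x) (fun t => φ (-t)) := by
  intro x hx
  obtain ⟨h0, h1⟩ := h x hx
  refine ⟨by simpa using h0, fun t => ⟨(h1 (-t)).1, ?_⟩⟩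
  have h2 := (h1 (-t)).2
  have h3 := HasDerivAt.scomp t h2 (hasDerivAt_neg t)
  simpa [Function.comp_def] using h3

theorem unique0 (Ω : Set F) (hΩ : IsOpen Ω) (Z : F → F) (hZ : ContDiffOn ℝ 1 Z Ω) (α β : ℝ → F)
    (T : ℝ) (hT : 0 ≤ T) (hα : ∀ t, α t ∈ Ω) (h1 : ∀ t, HasDerivAt α (Z (α t)) t)
    (h2 : ∀ t, HasDerivAt β (Z (β t)) t) (h0 : β 0 = α 0) : β T = α T := by
  obtain ⟨ε, hε, A, hA, h⟩ := stay Ω hΩ Z hZ α T hT hα h1
  have := h β h2 (by rw [h0, dist_self]; exact hε)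
  rw [h0, dist_self, mul_zero] at this
  exact dist_le_zero.1 this

theorem add0 (Ω S : Set F) (hΩ : IsOpen Ω) (hS : S ⊆ Ω) (Z : F → F) (hZ : ContDiffOn ℝ 1 Z Ω)
    (φ : ℝ → F → F) (hφ : IsFam S Z φ) (x : F) (hx : x ∈ S) (s t : ℝ) (ht : 0 ≤ t) :
    φ t (φ s x) = φ (s + t) x := by
  have hsx := ((hφ x hx).2 s).1
  refine unique0 Ω hΩ Z hZ (fun r => φ (s + r) x) (fun r => φ r (φ s x)) t ht
    (fun r => hS ((hφ x hx).2 _).1) (fun r => ?_) (fun r => ((hφ _ hsx).2 r).2) ?_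
  · have := ((hφ x hx).2 (s + r)).2
    exact this.comp_const_add s r
  · simp only [add_zero]
    exact (hφ _ hsx).1

/-- the group property -/
theorem add_all (Ω S : Set F) (hΩ : IsOpen Ω) (hS : S ⊆ Ω) (Z : F → F) (hZ : ContDiffOn ℝ 1 Z Ω)
    (φ : ℝ → F → F) (hφ : IsFam S Z φ) (x : F) (hx : x ∈ S) (s t : ℝ) :
    φ t (φ s x) = φ (s + t) x := by
  rcases le_total 0 t with ht | ht
  · exact add0 Ω S hΩ hS Z hZ φ hφ x hx s t ht
  · have h := add0 Ω S hΩ hS (fun x => -Z x) hZ.neg (fun t => φ (-t)) hφ.neg x hx (-s) (-t)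
      (by linarith)
    simp only [neg_neg] at h
    rw [h]
    congr 1
    ring

theorem cont0 (Ω S : Set F) (hΩ : IsOpen Ω) (hS : S ⊆ Ω) (Z : F → F) (hZ : ContDiffOn ℝ 1 Z Ω)
    (φ : ℝ → F → F) (hφ : IsFam S Z φ) (x : F) (hx : x ∈ S) (s : ℝ) (hs : 0 ≤ s) :
    ContinuousWithinAt (φ s) S x := by
  obtain ⟨ε, hε, A, hA, h⟩ := stay Ω hΩ Z hZ (fun t => φ t x) s hs (fun t => hS ((hφ x hx).2 t).1)
    (fun t => ((hφ x hx).2 t).2)
  rw [Metric.continuousWithinAt_iff]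
  intro r hr
  refine ⟨min ε (r / A), by positivity, fun {y} hy hyx => ?_⟩
  have h1 := h (fun t => φ t y) (fun t => ((hφ y hy).2 t).2) (by
    simp only [(hφ y hy).1, (hφ x hx).1]
    exact hyx.trans_le (min_le_left _ _))
  simp only [(hφ y hy).1, (hφ x hx).1] at h1
  refine h1.trans_lt ?_
  have h2 : dist y x < r / A := hyx.trans_le (min_le_right _ _)
  rw [lt_div_iff₀ hA] at h2
  rw [mul_comm]
  exact h2

theorem cont_all (Ω S : Set F) (hΩ : IsOpen Ω) (hS : S ⊆ Ω) (Z : F → F) (hZ : ContDiffOn ℝ 1 Z Ω)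
    (φ : ℝ → F → F) (hφ : IsFam S Z φ) (x : F) (hx : x ∈ S) (s : ℝ) :
    ContinuousWithinAt (φ s) S x := by
  rcases le_total 0 s with hs | hs
  · exact cont0 Ω S hΩ hS Z hZ φ hφ x hx s hs
  · have h := cont0 Ω S hΩ hS (fun x => -Z x) hZ.neg (fun t => φ (-t)) hφ.neg x hx (-s)
      (by linarith)
    simpa using h

/-- the set of nonwandering points is invariant -/
theorem nonw_inv (Ω S : Set F) (hΩ : IsOpen Ω) (hS : S ⊆ Ω) (Z : F → F) (hZ : ContDiffOn ℝ 1 Z Ω)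
    (φ : ℝ → F → F) (hφ : IsFam S Z φ) (x : F) (hx : x ∈ S)
    (h : ∀ V : Set F, IsOpen V → x ∈ V → ∀ T : ℝ, ∃ t : ℝ, T < t ∧ ∃ y ∈ V ∩ S, φ t y ∈ V)
    (s : ℝ) : ∀ V : Set F, IsOpen V → φ s x ∈ V → ∀ T : ℝ, ∃ t : ℝ, T < t ∧
      ∃ y ∈ V ∩ S, φ t y ∈ V := by
  intro V hV hxV T
  have hc := cont_all Ω S hΩ hS Z hZ φ hφ x hx s
  have h1 : φ s ⁻¹' V ∈ 𝓝[S] x := hc (hV.mem_nhds hxV)
  obtain ⟨W, hW, hxW, hWV⟩ := mem_nhdsWithin.1 h1
  obtain ⟨t, ht, y, ⟨hyW, hyS⟩, hty⟩ := h W hW hxW T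
  have hS1 := ((hφ y hyS).2 t).1
  refine ⟨t, ht, φ s y, ⟨hWV ⟨hyW, hyS⟩, ((hφ y hyS).2 s).1⟩, ?_⟩
  rw [add_all Ω S hΩ hS Z hZ φ hφ y hyS s t, add_comm,
    ← add_all Ω S hΩ hS Z hZ φ hφ y hyS t s]
  exact hWV ⟨hty, hS1⟩

end Pool.Agent.U562.NB
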