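import Pool.Agent.U562.NB.Jac
import Pool.Agent.U562.NB.Flow

set_option autoImplicit false

/-! Growth of nonwandering orbits of the three-body problem. -/

namespace Pool.Agent.U562.NB

open Pool.Agent.Y516.NW Pool.Agent.N775.NW Set

variable {N : ℕ}

theorem Z_smooth (m : Fin N → ℝ) (ψ : Cfg N × Cfg N → ℝ) (h : ContDiffOn ℝ 1 ψ (Free N)) :
    ContDiffOn ℝ 1 (Z m ψ) (Free N) := by
  unfold Z
  refine h.smul (ContDiffOn.prodMk ?_ ?_)
  · refine (contDiff_pi.2 fun i => ?_).contDiffOn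
    exact (((contDiff_apply ℝ E3 i).comp contDiff_snd)).const_smul ((m i)⁻¹)
  · refine contDiffOn_pi.2 fun i => ContDiffOn.sum fun j _ => ?_
    by_cases hij : j = i
    · subst hij
      simp only [sub_self, smul_zero]
      exact contDiffOn_const
    · have hc : ContDiff ℝ 1 fun x : Cfg N × Cfg N => x.1 j - x.1 i :=
        ((contDiff_apply ℝ E3 j).comp contDiff_fst).sub ((contDiff_apply ℝ E3 i).comp contDiff_fst)
      refine ContDiffOn.smul (ContDiffOn.div contDiffOn_const ?_ ?_) hc.contDiffOn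
      · intro x hx
        refine ContDiffAt.contDiffWithinAt ?_
        refine ContDiffAt.pow ?_ 3
        exact hc.contDiffAt.norm ℝ (sub_ne_zero.mpr (hx j i hij))
      · intro x hx
        exact pow_ne_zero 3 (norm_ne_zero_iff.mpr (sub_ne_zero.mpr (hx j i hij)))

theorem isFam_of (m : Fin N → ℝ) (E : ℝ) (ψ : Cfg N × Cfg N → ℝ)
    (φ : ℝ → Cfg N × Cfg N → Cfg N × Cfg N) (hφ : IsFl m E ψ φ) :
    IsFam (Surf m E) (Z m ψ) φ := hφ.flow

theorem nonW_inv (m : Fin N → ℝ) (E : ℝ) (ψ : Cfg N × Cfg N → ℝ)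
    (hψ : ContDiffOn ℝ 1 ψ (Free N)) (φ : ℝ → Cfg N × Cfg N → Cfg N × Cfg N) (hφ : IsFl m E ψ φ)
    (x : Cfg N × Cfg N) (hx : x ∈ Surf m E) (h : NonW (Surf m E) φ x) (s : ℝ) :
    NonW (Surf m E) φ (φ s x) :=
  nonw_inv (Free N) (Surf m E) free_open (surf_free m E) (Z m ψ) (Z_smooth m ψ hψ) φ
    (isFam_of m E ψ φ hφ) x hx h s

theorem inertia_deriv (m : Fin N → ℝ) {q v : ℝ → Cfg N} {c : ℝ → ℝ}
    (h : ∀ t i, HasDerivAt (fun s => q s i) (c t • v t i) t) (t : ℝ) :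
    HasDerivAt (fun s => inertia m (q s)) (2 * c t * ∑ i, m i * inner ℝ (q t i) (v t i)) t := by
  unfold inertia
  have h1 : ∀ i ∈ (Finset.univ : Finset (Fin N)), HasDerivAt (fun s => m i * ‖q s i‖ ^ 2)
      (m i * (2 * inner ℝ (q t i) (c t • v t i))) t := fun i _ =>
    ((h t i).norm_sq).const_mul (m i)
  have h2 := HasDerivAt.fun_sum h1
  refine h2.congr_deriv ?_
  rw [Finset.mul_sum]
  refine Finset.sum_congr rfl fun i _ => ?_
  rw [real_inner_smul_right]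
  ring

theorem inertia_pos (m : Fin 3 → ℝ) (hm : ∀ i, 0 < m i) (q : Cfg 3)
    (hq : ∀ i j, i ≠ j → q i ≠ q j) : 0 < inertia m q := by
  unfold inertia
  have h0 : ∀ i ∈ (Finset.univ : Finset (Fin 3)), 0 ≤ m i * ‖q i‖ ^ 2 := fun i _ => by
    have := hm i
    positivity
  refine lt_of_le_of_ne (Finset.sum_nonneg h0) fun h => ?_
  have h1 := (Finset.sum_eq_zero_iff_of_nonneg h0).1 h.symm
  have h2 : ∀ i, q i = 0 := by
    intro i
    have h3 := h1 i (Finset.mem_univ i)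
    have h4 : ‖q i‖ ^ 2 = 0 := by
      rcases mul_eq_zero.1 h3 with h | h
      · exact absurd h (hm i).ne'
      · exact h
    exact norm_eq_zero.1 (pow_eq_zero_iff (by norm_num) |>.1 h4)
  exact hq 0 1 (by decide) (by rw [h2, h2])

/-- the moment of inertia to the power `3/4` is Lipschitz in physical time along nonwandering
orbits -/
theorem grow (m : Fin 3 → ℝ) (hm : ∀ i, 0 < m i) :
    ∃ C : ℝ, 0 < C ∧ ∀ (E : ℝ) (ψ : Cfg 3 × Cfg 3 → ℝ), ContDiffOn ℝ 1 ψ (Free 3) →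
      ∀ (φ : ℝ → Cfg 3 × Cfg 3 → Cfg 3 × Cfg 3), IsFl m E ψ φ →
      ∀ x ∈ Surf m E, NonW (Surf m E) φ x → ∀ s t : ℝ, s ≤ t →
        |inertia m (φ t x).1 ^ (3 / 4 : ℝ) - inertia m (φ s x).1 ^ (3 / 4 : ℝ)| ≤
          C * ∫ r in s..t, ψ (φ r x) := by
  obtain ⟨C, hC, hb⟩ := bilin m hm
  refine ⟨3 / 2 * C, by positivity, ?_⟩
  intro E ψ hψ φ hφ x hx hNW s t hst
  obtain ⟨τ, hmot⟩ := mot_of_flow m hm E ψ φ hφ x hx
  have hS : ∀ r, φ r x ∈ Surf m E := fun r => ((hφ.flow x hx).2 r).1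
  have hN : ∀ r, NonW (Surf m E) φ (φ r x) := nonW_inv m E ψ hψ φ hφ x hx hNW
  have hJp : ∀ r, 0 < inertia m (φ r x).1 := fun r =>
    inertia_pos m hm _ fun i j hij => (hS r).1 i j hij
  have hJd : ∀ r, HasDerivAt (fun s => inertia m (φ s x).1)
      (2 * ψ (φ r x) * ∑ i, m i * inner ℝ ((φ r x).1 i) (vel m (φ r x) i)) r := fun r =>
    inertia_deriv m hmot.qd r
  have hgd : ∀ r, HasDerivAt (fun s => inertia m (φ s x).1 ^ (3 / 4 : ℝ))
      (2 * ψ (φ r x) * (∑ i, m i * inner ℝ ((φ r x).1 i) (vel m (φ r x) i)) * (3 / 4 : ℝ) *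
        inertia m (φ r x).1 ^ ((3 / 4 : ℝ) - 1)) r := fun r =>
    (hJd r).rpow_const (Or.inl (hJp r).ne')
  have hgb : ∀ r, |2 * ψ (φ r x) * (∑ i, m i * inner ℝ ((φ r x).1 i) (vel m (φ r x) i)) *
      (3 / 4 : ℝ) * inertia m (φ r x).1 ^ ((3 / 4 : ℝ) - 1)| ≤ 3 / 2 * C * ψ (φ r x) := by
    intro r
    have h1 := hb E ψ φ hφ (φ r x) (hS r) (hN r) (innerₗ E3) (fun u w => by
      exact abs_real_inner_le_norm u w)
    have h1' : |∑ i, m i * inner ℝ ((φ r x).1 i) (vel m (φ r x) i)| ≤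
        C * inertia m (φ r x).1 ^ (1 / 4 : ℝ) := h1
    have hψ0 : 0 < ψ (φ r x) := hφ.pos _ (surf_free m E (hS r))
    have hp := Real.rpow_pos_of_pos (hJp r) ((3 / 4 : ℝ) - 1)
    have e1 : inertia m (φ r x).1 ^ (1 / 4 : ℝ) * inertia m (φ r x).1 ^ ((3 / 4 : ℝ) - 1) = 1 := by
      rw [← Real.rpow_add (hJp r)]
      norm_num
    rw [abs_mul, abs_mul, abs_mul, abs_mul, abs_of_pos (show (0 : ℝ) < 2 by norm_num),
      abs_of_pos hψ0, abs_of_pos (show (0 : ℝ) < 3 / 4 by norm_num), abs_of_pos hp]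
    calc 2 * ψ (φ r x) * |∑ i, m i * inner ℝ ((φ r x).1 i) (vel m (φ r x) i)| * (3 / 4) *
          inertia m (φ r x).1 ^ ((3 / 4 : ℝ) - 1)
        ≤ 2 * ψ (φ r x) * (C * inertia m (φ r x).1 ^ (1 / 4 : ℝ)) * (3 / 4) *
          inertia m (φ r x).1 ^ ((3 / 4 : ℝ) - 1) := by gcongr
      _ = 3 / 2 * C * ψ (φ r x) * (inertia m (φ r x).1 ^ (1 / 4 : ℝ) *
          inertia m (φ r x).1 ^ ((3 / 4 : ℝ) - 1)) := by ring
      _ = _ := by rw [e1, mul_one]
  have hψc : Continuous fun r => ψ (φ r x) := by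
    have hcont : Continuous fun t => φ t x :=
      continuous_iff_continuousAt.mpr fun t => ((hφ.flow x hx).2 t).2.continuousAt
    exact hφ.cont.comp_continuous hcont (fun t => surf_free m E (hS t))
  have hId : ∀ r, HasDerivAt (fun u => 3 / 2 * C * ∫ w in s..u, ψ (φ w x))
      (3 / 2 * C * ψ (φ r x)) r := fun r =>
    (intervalIntegral.integral_hasDerivAt_right (hψc.intervalIntegrable _ _)
      (hψc.stronglyMeasurableAtFilter _ _) hψc.continuousAt).const_mul _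
  have up : Monotone fun u => (3 / 2 * C * ∫ w in s..u, ψ (φ w x)) -
      inertia m (φ u x).1 ^ (3 / 4 : ℝ) := by
    refine monotone_of_deriv_nonneg (fun r => ((hId r).fun_sub (hgd r)).differentiableAt) fun r => ?_
    rw [((hId r).fun_sub (hgd r)).deriv]
    have := (abs_le.1 (hgb r)).2
    linarith
  have dn : Monotone fun u => (3 / 2 * C * ∫ w in s..u, ψ (φ w x)) +
      inertia m (φ u x).1 ^ (3 / 4 : ℝ) := by
    refine monotone_of_deriv_nonneg (fun r => ((hId r).fun_add (hgd r)).differentiableAt) fun r => ?_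
    rw [((hId r).fun_add (hgd r)).deriv]
    have := (abs_le.1 (hgb r)).1
    linarith
  have h1 := up hst
  have h2 := dn hst
  simp only [intervalIntegral.integral_same, mul_zero] at h1 h2
  rw [abs_le]
  constructor <;> linarith

/-- the angular momentum -/
theorem angular (m : Fin 3 → ℝ) (hm : ∀ i, 0 < m i) :
    ∃ C : ℝ, 0 < C ∧ ∀ (E : ℝ) (ψ : Cfg 3 × Cfg 3 → ℝ)
      (φ : ℝ → Cfg 3 × Cfg 3 → Cfg 3 × Cfg 3), IsFl m E ψ φ →
      ∀ x ∈ Surf m E, NonW (Surf m E) φ x → ∀ k l : Fin 3,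
        |∑ i, (x.1 i k * x.2 i l - x.1 i l * x.2 i k)| ≤ C * inertia m x.1 ^ (1 / 4 : ℝ) := by
  obtain ⟨C, hC, hb⟩ := bilin m hm
  refine ⟨2 * C, by positivity, ?_⟩
  intro E ψ φ hφ x hx hNW k l
  let P : Fin 3 → E3 →ₗ[ℝ] ℝ := fun k => (EuclideanSpace.proj k : E3 →L[ℝ] ℝ).toLinearMap
  let B : E3 →ₗ[ℝ] E3 →ₗ[ℝ] ℝ := (1 / 2 : ℝ) • ((P k).smulRight (P l) - (P l).smulRight (P k))
  have hBe : ∀ u w : E3, B u w = 1 / 2 * (u k * w l - u l * w k) := by
    intro u w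
    simp [B, P, LinearMap.smulRight_apply]
  have hBb : ∀ u w : E3, |B u w| ≤ ‖u‖ * ‖w‖ := by
    intro u w
    have h1 : |u k| ≤ ‖u‖ := by
      have := PiLp.norm_apply_le u k
      simpa using this
    have h2 : |u l| ≤ ‖u‖ := by
      have := PiLp.norm_apply_le u l
      simpa using this
    have h3 : |w k| ≤ ‖w‖ := by
      have := PiLp.norm_apply_le w k
      simpa using this
    have h4 : |w l| ≤ ‖w‖ := by
      have := PiLp.norm_apply_le w l
      simpa using this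
    rw [hBe, abs_mul, abs_of_pos (show (0 : ℝ) < 1 / 2 by norm_num)]
    have h5 : |u k * w l - u l * w k| ≤ ‖u‖ * ‖w‖ + ‖u‖ * ‖w‖ := by
      refine (abs_sub _ _).trans ?_
      rw [abs_mul, abs_mul]
      gcongr
    linarith
  have h := hb E ψ φ hφ x hx hNW B hBb
  have e : ∑ i, (x.1 i k * x.2 i l - x.1 i l * x.2 i k) =
      2 * ∑ i, m i * B (x.1 i) (vel m x i) := by
    rw [Finset.mul_sum]
    refine Finset.sum_congr rfl fun i _ => ?_
    rw [hBe]
    unfold vel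
    have := (hm i).ne'
    simp only [PiLp.smul_apply, smul_eq_mul]
    field_simp
  rw [e, abs_mul, abs_of_pos (show (0 : ℝ) < 2 by norm_num)]
  linarith

end Pool.Agent.U562.NB
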