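import Pool.Agent.N775.NW.Three

set_option autoImplicit false

/-! Three bodies in Jacobi coordinates: bounds at nonwandering points. -/

namespace Pool.Agent.U562.NB

open Pool.Agent.Y516.NW Pool.Agent.N775.NW

/-- the moment of inertia -/
noncomputable def inertia {N : ℕ} (m : Fin N → ℝ) (q : Cfg N) : ℝ := ∑ i, m i * ‖q i‖ ^ 2

theorem jac (B : E3 →ₗ[ℝ] E3 →ₗ[ℝ] ℝ) (ma mb mc : ℝ) (ha : 0 < ma) (hb : 0 < mb) (hc : 0 < mc)
    (ua ub uc wa wb wc : E3) (hu : ma • ua + mb • ub + mc • uc = 0)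
    (hw : ma • wa + mb • wb + mc • wc = 0) :
    ma * B ua wa + mb * B ub wb + mc * B uc wc =
      ma * mb / (ma + mb) * B (ua - ub) (wa - wb) +
      (ma + mb) * mc / (ma + mb + mc) * B ((ma + mb)⁻¹ • (ma • ua + mb • ub) - uc)
        ((ma + mb)⁻¹ • (ma • wa + mb • wb) - wc) := by
  have huc : uc = -(mc⁻¹ • (ma • ua + mb • ub)) := by
    have h1 : mc • uc = -(ma • ua + mb • ub) := eq_neg_of_add_eq_zero_right hu
    rw [← smul_neg, ← h1, smul_smul, inv_mul_cancel₀ hc.ne', one_smul]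
  have hwc : wc = -(mc⁻¹ • (ma • wa + mb • wb)) := by
    have h1 : mc • wc = -(ma • wa + mb • wb) := eq_neg_of_add_eq_zero_right hw
    rw [← smul_neg, ← h1, smul_smul, inv_mul_cancel₀ hc.ne', one_smul]
  rw [huc, hwc]
  simp only [map_sub, map_neg, map_smul, map_add, LinearMap.sub_apply, LinearMap.neg_apply,
    LinearMap.smul_apply, LinearMap.add_apply, smul_eq_mul]
  generalize B ua wa = x1
  generalize B ua wb = x2
  generalize B ub wa = x3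
  generalize B ub wb = x4
  have h1 : ma + mb ≠ 0 := by positivity
  have h2 : ma + mb + mc ≠ 0 := by positivity
  field_simp
  ring

theorem sum3 {A : Type} [AddCommMonoid A] (f : Fin 3 → A) (a b c : Fin 3) (hab : a ≠ b)
    (hac : a ≠ c) (hbc : b ≠ c) : ∑ i, f i = f a + f b + f c := by
  have h : (Finset.univ : Finset (Fin 3)) = {a, b, c} := by
    revert a b c
    decide
  rw [h, Finset.sum_insert (by simp [hab, hac]), Finset.sum_insert (by simp [hbc]),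
    Finset.sum_singleton, add_assoc]

/-- Jacobi coordinates -/
theorem jac3 (m : Fin 3 → ℝ) (hm : ∀ i, 0 < m i) (B : E3 →ₗ[ℝ] E3 →ₗ[ℝ] ℝ) (u w : Cfg 3)
    (hu : ∑ i, m i • u i = 0) (hw : ∑ i, m i • w i = 0) (a b c : Fin 3) (hab : a ≠ b)
    (hac : a ≠ c) (hbc : b ≠ c) :
    ∑ i, m i * B (u i) (w i) = m a * m b / (m a + m b) * B (u a - u b) (w a - w b) +
      (m a + m b) * m c / (m a + m b + m c) * B (cm m a b u a - u c) (cm m a b w a - w c) := by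
  rw [sum3 _ a b c hab hac hbc] at hu hw ⊢
  have e : ∀ z : Cfg 3, cm m a b z a = (m a + m b)⁻¹ • (m a • z a + m b • z b) := by
    intro z
    unfold cm
    rw [if_pos (Or.inl rfl)]
  rw [e, e]
  exact jac B (m a) (m b) (m c) (hm a) (hm b) (hm c) _ _ _ _ _ _ hu hw

theorem closest (q : Cfg 3) : ∃ a b c : Fin 3, a ≠ b ∧ a ≠ c ∧ b ≠ c ∧
    ‖q a - q b‖ ≤ ‖q a - q c‖ ∧ ‖q a - q b‖ ≤ ‖q b - q c‖ := by
  rcases le_total ‖q 0 - q 1‖ ‖q 0 - q 2‖ with h1 | h1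
  · rcases le_total ‖q 0 - q 1‖ ‖q 1 - q 2‖ with h2 | h2
    · exact ⟨0, 1, 2, by decide, by decide, by decide, h1, h2⟩
    · refine ⟨1, 2, 0, by decide, by decide, by decide, ?_, ?_⟩
      · rw [norm_sub_rev (q 1) (q 0)]; exact h2
      · rw [norm_sub_rev (q 2) (q 0)]; exact h2.trans h1
  · rcases le_total ‖q 0 - q 2‖ ‖q 1 - q 2‖ with h2 | h2
    · refine ⟨0, 2, 1, by decide, by decide, by decide, h1, ?_⟩
      rw [norm_sub_rev (q 2) (q 1)]; exact h2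
    · refine ⟨1, 2, 0, by decide, by decide, by decide, ?_, ?_⟩
      · rw [norm_sub_rev (q 1) (q 0)]; exact h2.trans h1
      · rw [norm_sub_rev (q 2) (q 0)]; exact h2

theorem pot_le (m : Fin 3 → ℝ) (hm : ∀ i, 0 < m i) (q : Cfg 3) (a b c : Fin 3) (hab : a ≠ b)
    (hac : a ≠ c) (hbc : b ≠ c) (h1 : ‖q a - q b‖ ≤ ‖q a - q c‖)
    (h2 : ‖q a - q b‖ ≤ ‖q b - q c‖) (h0 : 0 < ‖q a - q b‖) :
    ∑ i, ∑ j, m i * m j / ‖q i - q j‖ / 2 ≤ (∑ i, m i) ^ 2 / (2 * ‖q a - q b‖) := by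
  have hdist : ∀ i j, i ≠ j → ‖q a - q b‖ ≤ ‖q i - q j‖ := by
    intro i j hij
    rcases fin3 a b c i hab hac hbc with rfl | rfl | rfl <;>
    rcases fin3 _ _ _ j hab hac hbc with rfl | rfl | rfl
    · exact absurd rfl hij
    · exact le_rfl
    · exact h1
    · exact (norm_sub_rev _ _).le
    · exact absurd rfl hij
    · exact h2
    · exact h1.trans (norm_sub_rev _ _).le
    · exact h2.trans (norm_sub_rev _ _).le
    · exact absurd rfl hij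
  have e1 : ∀ i j, m i * m j / ‖q i - q j‖ / 2 ≤ m i * m j / (2 * ‖q a - q b‖) := by
    intro i j
    have h5 : 0 < m i * m j := mul_pos (hm i) (hm j)
    by_cases hij : i = j
    · subst hij
      rw [sub_self, norm_zero, div_zero, zero_div]
      positivity
    · rw [div_div, mul_comm _ (2 : ℝ)]
      gcongr
      exact hdist i j hij
  have e2 : ∑ i, ∑ j, m i * m j / (2 * ‖q a - q b‖) = (∑ i, m i) ^ 2 / (2 * ‖q a - q b‖) := by
    simp only [← Finset.sum_div, ← Finset.mul_sum, ← Finset.sum_mul]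
    rw [sq]
  rw [← e2]
  exact Finset.sum_le_sum fun i _ => Finset.sum_le_sum fun j _ => e1 i j

theorem root4 (y k j : ℝ) (hk : 0 ≤ k) (hj : 0 ≤ j) (h : y ^ 4 ≤ k * j ^ 4) :
    y ≤ (1 + k) * j := by
  refine le_of_pow_le_pow_left₀ (n := 4) (by norm_num) (by positivity) (h.trans ?_)
  rw [mul_pow]
  refine mul_le_mul_of_nonneg_right ?_ (by positivity)
  have h1 : (1 : ℝ) ≤ 1 + k := by linarith
  calc k ≤ (1 + k) ^ 1 := by rw [pow_one]; linarith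
    _ ≤ (1 + k) ^ 4 := pow_le_pow_right₀ h1 (by norm_num)

theorem vel_sum (m : Fin 3 → ℝ) (hm : ∀ i, 0 < m i) (x : Cfg 3 × Cfg 3)
    (h : ∑ i, x.2 i = 0) : ∑ i, m i • vel m x i = 0 := by
  rw [← h]
  refine Finset.sum_congr rfl fun i _ => ?_
  unfold vel
  rw [smul_smul, mul_inv_cancel₀ (hm i).ne', one_smul]

/-- the constant for a pair -/
noncomputable def cst (m : Fin 3 → ℝ) (C1 : ℝ) (t : Fin 3 × Fin 3 × Fin 3) : ℝ :=
  m t.1 * m t.2.1 / (m t.1 + m t.2.1) *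
      (1 + ((∑ i, m i) ^ 2 / (m t.1 * m t.2.1 / (m t.1 + m t.2.1))) ^ 2 /
        (m t.1 * m t.2.1 / (m t.1 + m t.2.1))) +
    (m t.1 + m t.2.1) * m t.2.2 / (m t.1 + m t.2.1 + m t.2.2) *
      (1 + C1 ^ 2 / ((m t.1 + m t.2.1) * m t.2.2 / (m t.1 + m t.2.1 + m t.2.2)))

theorem cst_nonneg (m : Fin 3 → ℝ) (hm : ∀ i, 0 < m i) (C1 : ℝ) (t : Fin 3 × Fin 3 × Fin 3) :
    0 ≤ cst m C1 t := by
  have h1 := hm t.1
  have h2 := hm t.2.1
  have h3 := hm t.2.2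
  unfold cst
  positivity

/-- bilinear quantities at nonwandering points -/
theorem bilin (m : Fin 3 → ℝ) (hm : ∀ i, 0 < m i) :
    ∃ C : ℝ, 0 < C ∧ ∀ (E : ℝ) (ψ : Cfg 3 × Cfg 3 → ℝ)
      (φ : ℝ → Cfg 3 × Cfg 3 → Cfg 3 × Cfg 3), IsFl m E ψ φ →
      ∀ x ∈ Surf m E, NonW (Surf m E) φ x →
      ∀ B : E3 →ₗ[ℝ] E3 →ₗ[ℝ] ℝ, (∀ u w, |B u w| ≤ ‖u‖ * ‖w‖) →
        |∑ i, m i * B (x.1 i) (vel m x i)| ≤ C * inertia m x.1 ^ (1 / 4 : ℝ) := by
  obtain ⟨C1, hC1, h3⟩ := three m hm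
  refine ⟨1 + ∑ t : Fin 3 × Fin 3 × Fin 3, cst m C1 t, ?_, ?_⟩
  · have := Finset.sum_nonneg fun t (_ : t ∈ (Finset.univ : Finset (Fin 3 × Fin 3 × Fin 3))) =>
      cst_nonneg m hm C1 t
    linarith
  intro E ψ φ hφ x hx hNW B hB
  have hE : E ≤ 0 := by
    by_contra hE
    push Not at hE
    exact absurd hNW (Pool.Agent.Y438.NW.pos 3 m hm E hE ψ φ hφ x hx)
  obtain ⟨a, b, c, hab, hac, hbc, h1, h2⟩ := closest x.1
  have hr0 : 0 < ‖x.1 a - x.1 b‖ := norm_pos_iff.2 (sub_ne_zero.2 (hx.1 a b hab))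
  have hX := h3 E ψ φ hφ x hx hNW a b c hab hac hbc h1 h2
  have hqs : ∑ i, m i • x.1 i = 0 := hx.2.1
  have hvs : ∑ i, m i • vel m x i = 0 := vel_sum m hm x hx.2.2.1
  have hma := hm a
  have hmb := hm b
  have hmc := hm c
  obtain ⟨μ1, hμ1⟩ : ∃ μ1 : ℝ, μ1 = m a * m b / (m a + m b) := ⟨_, rfl⟩
  obtain ⟨μ2, hμ2⟩ : ∃ μ2 : ℝ, μ2 = (m a + m b) * m c / (m a + m b + m c) := ⟨_, rfl⟩
  have hμ1p : 0 < μ1 := by rw [hμ1]; positivity
  have hμ2p : 0 < μ2 := by rw [hμ2]; positivity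
  have hJB : ∀ (u w : Cfg 3), ∑ i, m i • u i = 0 → ∑ i, m i • w i = 0 →
      ∀ B : E3 →ₗ[ℝ] E3 →ₗ[ℝ] ℝ, ∑ i, m i * B (u i) (w i) = μ1 * B (u a - u b) (w a - w b) +
        μ2 * B (cm m a b u a - u c) (cm m a b w a - w c) := by
    intro u w hu hw B
    rw [hμ1, hμ2]
    exact jac3 m hm B u w hu hw a b c hab hac hbc
  have hin : ∀ u w : E3, (innerₗ E3) u w = inner ℝ u w := fun u w => rfl
  -- the moment of inertia
  have hJ : inertia m x.1 = μ1 * ‖x.1 a - x.1 b‖ ^ 2 + μ2 * ‖cm m a b x.1 a - x.1 c‖ ^ 2 := by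
    have := hJB x.1 x.1 hqs hqs (innerₗ E3)
    simp only [hin, real_inner_self_eq_norm_sq] at this
    exact this
  -- the kinetic energy
  have hK : ∑ i, ‖x.2 i‖ ^ 2 / (2 * m i) = (μ1 * ‖vel m x a - vel m x b‖ ^ 2 +
      μ2 * ‖cm m a b (vel m x) a - vel m x c‖ ^ 2) / 2 := by
    have := hJB (vel m x) (vel m x) hvs hvs (innerₗ E3)
    simp only [hin, real_inner_self_eq_norm_sq] at this
    rw [← this, Finset.sum_div]
    refine Finset.sum_congr rfl fun i _ => ?_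
    have := (hm i).ne'
    unfold vel
    rw [norm_smul, norm_inv, Real.norm_of_nonneg (hm i).le]
    field_simp
  obtain ⟨M, hM⟩ : ∃ M : ℝ, M = ∑ i, m i := ⟨_, rfl⟩
  have hpot := pot_le m hm x.1 a b c hab hac hbc h1 h2 hr0
  rw [← hM] at hpot
  obtain ⟨r, hr⟩ : ∃ r : ℝ, r = ‖x.1 a - x.1 b‖ := ⟨_, rfl⟩
  obtain ⟨v, hv⟩ : ∃ v : ℝ, v = ‖vel m x a - vel m x b‖ := ⟨_, rfl⟩
  obtain ⟨X, hXd⟩ : ∃ X : ℝ, X = ‖cm m a b x.1 a - x.1 c‖ := ⟨_, rfl⟩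
  obtain ⟨V, hVd⟩ : ∃ V : ℝ, V = ‖cm m a b (vel m x) a - vel m x c‖ := ⟨_, rfl⟩
  have hv0 : 0 ≤ v := by rw [hv]; exact norm_nonneg _
  have hX0 : 0 ≤ X := by rw [hXd]; exact norm_nonneg _
  have hV0 : 0 ≤ V := by rw [hVd]; exact norm_nonneg _
  rw [← hXd, ← hVd] at hX
  rw [← hr, ← hXd] at hJ
  rw [← hv, ← hVd] at hK
  rw [← hr] at hpot hr0
  have hen := hx.2.2.2
  have hrv : r * v ^ 2 ≤ M ^ 2 / μ1 := by
    have e1 : μ1 * v ^ 2 / 2 ≤ M ^ 2 / (2 * r) := by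
      have : 0 ≤ μ2 * V ^ 2 := by positivity
      linarith
    have e2 : μ1 * v ^ 2 ≤ M ^ 2 / r := by
      have : M ^ 2 / (2 * r) = M ^ 2 / r / 2 := by field_simp
      rw [this] at e1
      linarith
    rw [le_div_iff₀ hr0] at e2
    rw [le_div_iff₀ hμ1p]
    linarith
  have hJ0 : 0 ≤ inertia m x.1 := by rw [hJ]; positivity
  obtain ⟨j, hj⟩ : ∃ j : ℝ, j = inertia m x.1 ^ (1 / 4 : ℝ) := ⟨_, rfl⟩
  have hj0 : 0 ≤ j := by rw [hj]; positivity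
  have hj4 : j ^ 4 = inertia m x.1 := by
    rw [hj, ← Real.rpow_natCast, ← Real.rpow_mul hJ0]
    norm_num
  have hr2 : r ^ 2 ≤ j ^ 4 / μ1 := by
    rw [le_div_iff₀ hμ1p, hj4, hJ]
    have : 0 ≤ μ2 * X ^ 2 := by positivity
    linarith
  have hX2 : X ^ 2 ≤ j ^ 4 / μ2 := by
    rw [le_div_iff₀ hμ2p, hj4, hJ]
    have : 0 ≤ μ1 * r ^ 2 := by positivity
    linarith
  have b1 : r * v ≤ (1 + (M ^ 2 / μ1) ^ 2 / μ1) * j := by
    refine root4 _ _ _ (by positivity) hj0 ?_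
    calc (r * v) ^ 4 = (r * v ^ 2) ^ 2 * r ^ 2 := by ring
      _ ≤ (M ^ 2 / μ1) ^ 2 * (j ^ 4 / μ1) := by
          gcongr
      _ = _ := by ring
  have b2 : X * V ≤ (1 + C1 ^ 2 / μ2) * j := by
    refine root4 _ _ _ (by positivity) hj0 ?_
    calc (X * V) ^ 4 = (X * V ^ 2) ^ 2 * X ^ 2 := by ring
      _ ≤ C1 ^ 2 * (j ^ 4 / μ2) := by
          gcongr
      _ = _ := by ring
  rw [hJB x.1 (vel m x) hqs hvs B, ← hj]
  have c1 := hB (x.1 a - x.1 b) (vel m x a - vel m x b)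
  have c2 := hB (cm m a b x.1 a - x.1 c) (cm m a b (vel m x) a - vel m x c)
  rw [← hr, ← hv] at c1
  rw [← hXd, ← hVd] at c2
  have hcst : cst m C1 (a, b, c) = μ1 * (1 + (M ^ 2 / μ1) ^ 2 / μ1) + μ2 * (1 + C1 ^ 2 / μ2) := by
    unfold cst
    dsimp only
    rw [← hμ1, ← hμ2, ← hM]
  have hle : cst m C1 (a, b, c) ≤ ∑ t : Fin 3 × Fin 3 × Fin 3, cst m C1 t :=
    Finset.single_le_sum (f := cst m C1) (fun t _ => cst_nonneg m hm C1 t) (Finset.mem_univ _)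
  refine (abs_add_le _ _).trans ?_
  rw [abs_mul, abs_mul, abs_of_pos hμ1p, abs_of_pos hμ2p]
  calc μ1 * |B (x.1 a - x.1 b) (vel m x a - vel m x b)| +
        μ2 * |B (cm m a b x.1 a - x.1 c) (cm m a b (vel m x) a - vel m x c)|
      ≤ μ1 * ((1 + (M ^ 2 / μ1) ^ 2 / μ1) * j) + μ2 * ((1 + C1 ^ 2 / μ2) * j) := by
        gcongr
        · exact c1.trans b1
        · exact c2.trans b2
    _ = cst m C1 (a, b, c) * j := by rw [hcst]; ring
    _ ≤ (1 + ∑ t : Fin 3 × Fin 3 × Fin 3, cst m C1 t) * j := by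
        gcongr
        linarith

end Pool.Agent.U562.NB
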