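import Pool.Agent.U562.NB.Grow

set_option autoImplicit false

/-! The virial theorem along nonwandering orbits of the three-body problem. -/

namespace Pool.Agent.U562.NB

open Pool.Agent.Y516.NW Pool.Agent.N775.NW Set

variable {N : ℕ}

/-- the potential -/
noncomputable def pot {N : ℕ} (m : Fin N → ℝ) (q : Cfg N) : ℝ :=
  ∑ i, ∑ j, m i * m j / ‖q i - q j‖ / 2

theorem lj_deriv (m : Fin N → ℝ) {E : ℝ} {q v : ℝ → Cfg N} {c τ : ℝ → ℝ} (h : Mot m E q v c τ)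
    (t : ℝ) : HasDerivAt (fun s => ∑ i, m i * inner ℝ (q s i) (v s i))
      ((pot m (q t) + 2 * E) * c t) t := by
  have h1 : ∀ i ∈ (Finset.univ : Finset (Fin N)), HasDerivAt (fun s => m i * inner ℝ (q s i) (v s i))
      (m i * (inner ℝ (q t i) (c t • acc m (q t) i) + inner ℝ (c t • v t i) (v t i))) t :=
    fun i _ => ((h.qd t i).inner ℝ (h.vd t i)).const_mul (m i)
  have h2 := HasDerivAt.fun_sum h1
  refine h2.congr_deriv ?_
  have e1 : ∑ i, m i * (inner ℝ (q t i) (c t • acc m (q t) i) + inner ℝ (c t • v t i) (v t i)) =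
      c t * (∑ i, m i * inner ℝ (q t i) (acc m (q t) i) + 2 * ∑ i, m i * ‖v t i‖ ^ 2 / 2) := by
    rw [Finset.mul_sum, ← Finset.sum_add_distrib, Finset.mul_sum]
    refine Finset.sum_congr rfl fun i _ => ?_
    rw [real_inner_smul_right, real_inner_smul_left, real_inner_self_eq_norm_sq]
    ring
  rw [e1, Pool.Agent.Y438.NW.virial]
  have h3 := h.en t
  have h4 : ∑ i, m i * ‖v t i‖ ^ 2 / 2 = E + pot m (q t) := by
    unfold pot
    linarith
  rw [h4]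
  unfold pot
  ring

theorem virial_bound (m : Fin 3 → ℝ) (hm : ∀ i, 0 < m i) :
    ∃ C : ℝ, 0 < C ∧ ∀ (E : ℝ) (ψ : Cfg 3 × Cfg 3 → ℝ), ContDiffOn ℝ 1 ψ (Free 3) →
      ∀ (φ : ℝ → Cfg 3 × Cfg 3 → Cfg 3 × Cfg 3), IsFl m E ψ φ →
      ∀ x ∈ Surf m E, NonW (Surf m E) φ x → ∀ s t : ℝ, s ≤ t →
        |∫ r in s..t, (pot m (φ r x).1 + 2 * E) * ψ (φ r x)| ≤
          C * (inertia m (φ s x).1 ^ (1 / 4 : ℝ) + (∫ r in s..t, ψ (φ r x)) ^ (1 / 3 : ℝ)) := by
  obtain ⟨C, hC, hb⟩ := bilin m hm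
  obtain ⟨D, hD, hg⟩ := grow m hm
  refine ⟨C * (2 + D ^ (1 / 3 : ℝ)), by positivity, ?_⟩
  intro E ψ hψ φ hφ x hx hNW s t hst
  obtain ⟨τ, hmot⟩ := mot_of_flow m hm E ψ φ hφ x hx
  have hS : ∀ r, φ r x ∈ Surf m E := fun r => ((hφ.flow x hx).2 r).1
  have hN : ∀ r, NonW (Surf m E) φ (φ r x) := nonW_inv m E ψ hψ φ hφ x hx hNW
  have hJp : ∀ r, 0 < inertia m (φ r x).1 := fun r =>
    inertia_pos m hm _ fun i j hij => (hS r).1 i j hij
  have hcont : Continuous fun t => φ t x :=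
    continuous_iff_continuousAt.mpr fun t => ((hφ.flow x hx).2 t).2.continuousAt
  have hψc : Continuous fun r => ψ (φ r x) :=
    hφ.cont.comp_continuous hcont (fun t => surf_free m E (hS t))
  have hpc : Continuous fun r => pot m (φ r x).1 := by
    have e : (fun r => pot m (φ r x).1) = fun r => ∑ i, ‖(φ r x).2 i‖ ^ 2 / (2 * m i) - E := by
      funext r
      have := (hS r).2.2.2
      unfold pot
      linarith
    rw [e]
    refine (continuous_finsetSum _ fun i _ => ?_).sub continuous_const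
    exact ((((continuous_apply i).comp (continuous_snd.comp hcont)).norm).pow 2).div_const _
  have hder : ∀ r ∈ uIcc s t, HasDerivAt (fun r => ∑ i, m i * inner ℝ ((φ r x).1 i)
      (vel m (φ r x) i)) ((pot m (φ r x).1 + 2 * E) * ψ (φ r x)) r := fun r _ => lj_deriv m hmot r
  have hint : IntervalIntegrable (fun r => (pot m (φ r x).1 + 2 * E) * ψ (φ r x))
      MeasureTheory.volume s t := ((hpc.add continuous_const).mul hψc).intervalIntegrable _ _
  rw [intervalIntegral.integral_eq_sub_of_hasDerivAt hder hint]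
  have hbr : ∀ r, |∑ i, m i * inner ℝ ((φ r x).1 i) (vel m (φ r x) i)| ≤
      C * inertia m (φ r x).1 ^ (1 / 4 : ℝ) := fun r =>
    hb E ψ φ hφ (φ r x) (hS r) (hN r) (innerₗ E3) (fun u w => abs_real_inner_le_norm u w)
  have hT : 0 ≤ ∫ r in s..t, ψ (φ r x) :=
    intervalIntegral.integral_nonneg hst fun r _ => (hφ.pos _ (surf_free m E (hS r))).le
  have h1 := (abs_le.1 (hg E ψ hψ φ hφ x hx hNW s t hst)).2
  have h2 : inertia m (φ t x).1 ^ (1 / 4 : ℝ) ≤ inertia m (φ s x).1 ^ (1 / 4 : ℝ) +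
      D ^ (1 / 3 : ℝ) * (∫ r in s..t, ψ (φ r x)) ^ (1 / 3 : ℝ) := by
    have e1 : ∀ r, inertia m (φ r x).1 ^ (1 / 4 : ℝ) =
        (inertia m (φ r x).1 ^ (3 / 4 : ℝ)) ^ (1 / 3 : ℝ) := by
      intro r
      rw [← Real.rpow_mul (hJp r).le]
      norm_num
    rw [e1, e1, ← Real.mul_rpow hD.le hT]
    refine le_trans ?_ (Real.rpow_add_le_add_rpow (Real.rpow_nonneg (hJp s).le _)
      (mul_nonneg hD.le hT) (by norm_num) (by norm_num))
    refine Real.rpow_le_rpow (Real.rpow_nonneg (hJp t).le _) ?_ (by norm_num)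
    linarith
  refine (abs_sub _ _).trans ?_
  have h3 := hbr s
  have h4 := hbr t
  have h5 : 0 ≤ inertia m (φ s x).1 ^ (1 / 4 : ℝ) := Real.rpow_nonneg (hJp s).le _
  have h6 : 0 ≤ (∫ r in s..t, ψ (φ r x)) ^ (1 / 3 : ℝ) := Real.rpow_nonneg hT _
  have h7 : 0 ≤ D ^ (1 / 3 : ℝ) := Real.rpow_nonneg hD.le _
  calc |∑ i, m i * inner ℝ ((φ t x).1 i) (vel m (φ t x) i)| +
        |∑ i, m i * inner ℝ ((φ s x).1 i) (vel m (φ s x) i)|
      ≤ C * (inertia m (φ s x).1 ^ (1 / 4 : ℝ) +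
          D ^ (1 / 3 : ℝ) * (∫ r in s..t, ψ (φ r x)) ^ (1 / 3 : ℝ)) +
        C * inertia m (φ s x).1 ^ (1 / 4 : ℝ) := by
        gcongr
        exact h4.trans (by gcongr)
    _ = C * (2 * inertia m (φ s x).1 ^ (1 / 4 : ℝ) +
          D ^ (1 / 3 : ℝ) * (∫ r in s..t, ψ (φ r x)) ^ (1 / 3 : ℝ)) := by ring
    _ ≤ C * (2 + D ^ (1 / 3 : ℝ)) * (inertia m (φ s x).1 ^ (1 / 4 : ℝ) +
          (∫ r in s..t, ψ (φ r x)) ^ (1 / 3 : ℝ)) := by
        rw [mul_assoc]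
        gcongr
        nlinarith [mul_nonneg h7 h5, h6]

end Pool.Agent.U562.NB
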